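import Pool.Agent.Helper903.ES.Main

set_option autoImplicit false

namespace Pool.Agent.Results.MP_95bdb0_co.UnconditionalRatio

open Finset Filter

/-- `G` has no subgraph isomorphic to `T` -/
def TFree {V W : Type} (G : SimpleGraph V) (T : SimpleGraph W) : Prop :=
  ¬ ∃ f : W → V, Function.Injective f ∧ ∀ a b, T.Adj a b → G.Adj (f a) (f b)

/-- edge numbers of `T`-free subgraphs of `K_{n,n}` -/
def bSet (n : ℕ) {t : ℕ} (T : SimpleGraph (Fin t)) : Set ℕ :=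
  {m | ∃ G : SimpleGraph (Fin n ⊕ Fin n), G ≤ completeBipartiteGraph (Fin n) (Fin n) ∧
    TFree G T ∧ G.edgeSet.ncard = m}

/-- edge numbers of connected `T`-free subgraphs of `K_{n,n}` -/
def bcSet (n : ℕ) {t : ℕ} (T : SimpleGraph (Fin t)) : Set ℕ :=
  {m | ∃ G : SimpleGraph (Fin n ⊕ Fin n), G ≤ completeBipartiteGraph (Fin n) (Fin n) ∧
    G.Connected ∧ TFree G T ∧ G.edgeSet.ncard = m}

/-- `ex_b(n, T)` -/
noncomputable def exb (n : ℕ) {t : ℕ} (T : SimpleGraph (Fin t)) : ℕ := sSup (bSet n T)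

/-- `ex_{b,c}(n, T)` -/
noncomputable def exbc (n : ℕ) {t : ℕ} (T : SimpleGraph (Fin t)) : ℕ := sSup (bcSet n T)

/-- `γ_{b,c,T}` -/
noncomputable def gbc {t : ℕ} (T : SimpleGraph (Fin t)) : ℝ :=
  limsup (fun n : ℕ => (exbc n T : ℝ) / (((t : ℝ) - 2) * n)) atTop

/-- `γ_{b↔c,T}` -/
noncomputable def gratio {t : ℕ} (T : SimpleGraph (Fin t)) : ℝ :=
  limsup (fun n : ℕ => (exbc n T : ℝ) / (exb n T : ℝ)) atTop

/-- infimum of `γ_{b,c,T}` over trees with at least `k` vertices -/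
noncomputable def infBc (k : ℕ) : ℝ :=
  sInf {x | ∃ t : ℕ, k ≤ t ∧ ∃ T : SimpleGraph (Fin t), T.IsTree ∧ x = gbc T}

/-- infimum of `γ_{b↔c,T}` over trees with at least `k` vertices -/
noncomputable def infRatio (k : ℕ) : ℝ :=
  sInf {x | ∃ t : ℕ, k ≤ t ∧ ∃ T : SimpleGraph (Fin t), T.IsTree ∧ x = gratio T}

theorem edge_bound {n t : ℕ} (ht : 2 ≤ t) (T : SimpleGraph (Fin t)) (hT : T.IsTree)
    (G : SimpleGraph (Fin n ⊕ Fin n)) (hG : TFree G T) : G.edgeSet.ncard ≤ (t - 2) * n := by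
  classical
  by_contra hcon
  push Not at hcon
  apply hG
  have hedge : G.edgeSet.ncard = G.edgeFinset.card := by
    rw [← SimpleGraph.coe_edgeFinset, Set.ncard_coe_finset]
  rw [hedge] at hcon
  obtain ⟨f, hf⟩ := ES903.erdos_sos G (t - 1) (by
    rw [Fintype.card_sum, Fintype.card_fin]
    have h1 : t - 1 - 1 = t - 2 := by omega
    rw [h1, mul_add]
    omega) T hT (by rw [Fintype.card_fin]; omega)
  exact ⟨f, f.injective, hf⟩

theorem bSet_le {n t : ℕ} (ht : 2 ≤ t) (T : SimpleGraph (Fin t)) (hT : T.IsTree) :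
    ∀ m ∈ bSet n T, m ≤ (t - 2) * n := by
  rintro m ⟨G, -, hG, rfl⟩
  exact edge_bound ht T hT G hG

theorem exb_le {n t : ℕ} (ht : 2 ≤ t) (T : SimpleGraph (Fin t)) (hT : T.IsTree) :
    exb n T ≤ (t - 2) * n := by
  rcases Set.eq_empty_or_nonempty (bSet n T) with h | h
  · rw [exb, h]
    simp
  · exact csSup_le h (bSet_le ht T hT)

theorem exbc_le_exb {n t : ℕ} (ht : 2 ≤ t) (T : SimpleGraph (Fin t)) (hT : T.IsTree) :
    exbc n T ≤ exb n T := by
  rcases Set.eq_empty_or_nonempty (bcSet n T) with h | h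
  · rw [exbc, h]
    simp
  · apply csSup_le_csSup ⟨(t - 2) * n, bSet_le ht T hT⟩ h
    rintro m ⟨G, h1, -, h2, h3⟩
    exact ⟨G, h1, h2, h3⟩

theorem cast_bound {n t : ℕ} (ht : 3 ≤ t) (T : SimpleGraph (Fin t)) (hT : T.IsTree) :
    (exb n T : ℝ) ≤ ((t : ℝ) - 2) * n := by
  have h := exb_le (n := n) (by omega) T hT
  have h2 : ((exb n T : ℕ) : ℝ) ≤ (((t - 2) * n : ℕ) : ℝ) := by exact_mod_cast h
  rw [Nat.cast_mul, Nat.cast_sub (by omega : 2 ≤ t)] at h2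
  exact_mod_cast h2

theorem ratio_le_one {n t : ℕ} (ht : 3 ≤ t) (T : SimpleGraph (Fin t)) (hT : T.IsTree) :
    (exbc n T : ℝ) / (exb n T : ℝ) ≤ 1 := by
  have h : (exbc n T : ℝ) ≤ exb n T := by exact_mod_cast exbc_le_exb (by omega) T hT
  exact div_le_one_of_le₀ h (Nat.cast_nonneg _)

theorem first_le {n t : ℕ} (ht : 3 ≤ t) (T : SimpleGraph (Fin t)) (hT : T.IsTree) :
    (exbc n T : ℝ) / (((t : ℝ) - 2) * n) ≤ (exbc n T : ℝ) / (exb n T : ℝ) := by
  have h1 : (exbc n T : ℝ) ≤ exb n T := by exact_mod_cast exbc_le_exb (by omega) T hT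
  have h2 := cast_bound (n := n) ht T hT
  have h3 : (0 : ℝ) ≤ exbc n T := Nat.cast_nonneg _
  have h4 : (0 : ℝ) ≤ exb n T := Nat.cast_nonneg _
  rcases h4.lt_or_eq with h5 | h5
  · exact div_le_div_of_nonneg_left h3 h5 h2
  · have h6 : (exbc n T : ℝ) = 0 := le_antisymm (by rw [h5]; exact h1) h3
    rw [h6, zero_div, zero_div]

theorem first_nonneg {n t : ℕ} (ht : 3 ≤ t) (T : SimpleGraph (Fin t)) :
    0 ≤ (exbc n T : ℝ) / (((t : ℝ) - 2) * n) := by
  have h1 : (3 : ℝ) ≤ t := by exact_mod_cast ht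
  have h2 : (0 : ℝ) ≤ ((t : ℝ) - 2) * n := mul_nonneg (by linarith) (Nat.cast_nonneg _)
  positivity

theorem gbc_le_gratio {t : ℕ} (ht : 3 ≤ t) (T : SimpleGraph (Fin t)) (hT : T.IsTree) :
    gbc T ≤ gratio T := by
  apply Filter.limsup_le_limsup
  · exact Filter.Eventually.of_forall fun n => first_le ht T hT
  · exact Filter.isCoboundedUnder_le_of_le atTop (x := 0) (fun n => first_nonneg ht T)
  · exact Filter.isBoundedUnder_of ⟨1, fun n => ratio_le_one ht T hT⟩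

theorem gbc_nonneg {t : ℕ} (ht : 3 ≤ t) (T : SimpleGraph (Fin t)) (hT : T.IsTree) :
    0 ≤ gbc T := by
  apply Filter.le_limsup_of_frequently_le
  · exact Filter.Frequently.of_forall fun n => first_nonneg ht T
  · exact Filter.isBoundedUnder_of ⟨1, fun n => (first_le ht T hT).trans (ratio_le_one ht T hT)⟩

theorem inf_le {k : ℕ} (hk : 3 ≤ k) : infBc k ≤ infRatio k := by
  apply le_csInf
  · obtain ⟨j, rfl⟩ : ∃ j, k = j + 1 := ⟨k - 1, by omega⟩
    exact ⟨_, j + 1, le_rfl, SimpleGraph.starGraph (0 : Fin (j + 1)),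
      SimpleGraph.isTree_starGraph _, rfl⟩
  · rintro x ⟨t, ht, T, hT, rfl⟩
    refine le_trans (csInf_le ?_ ⟨t, ht, T, hT, rfl⟩) (gbc_le_gratio (by omega) T hT)
    refine ⟨0, ?_⟩
    rintro y ⟨t', ht', T', hT', rfl⟩
    exact gbc_nonneg (by omega) T' hT'

/-- `γ_{b,c,T} ≤ γ_{b↔c,T}` for every tree on at least three vertices, hence
`γ_{b,c} ≤ γ_{b↔c}`. -/
theorem result :
    (∀ (t : ℕ), 3 ≤ t → ∀ T : SimpleGraph (Fin t), T.IsTree →
      (∀ n, exb n T ≤ (t - 2) * n) ∧ gbc T ≤ gratio T) ∧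
    (∀ k : ℕ, 3 ≤ k → infBc k ≤ infRatio k) ∧
    (∀ x y : ℝ, Tendsto infBc atTop (nhds x) → Tendsto infRatio atTop (nhds y) → x ≤ y) := by
  refine ⟨fun t ht T hT => ⟨fun n => exb_le (by omega) T hT, gbc_le_gratio ht T hT⟩,
    fun k hk => inf_le hk, fun x y hx hy => ?_⟩
  exact le_of_tendsto_of_tendsto hx hy
    ((Filter.eventually_ge_atTop 3).mono fun k hk => inf_le hk)

end Pool.Agent.Results.MP_95bdb0_co.UnconditionalRatio
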