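import Pool.Agent.Helper903.ES.Main
import Pool.Agent.V11174.BroomD

set_option autoImplicit false

namespace Pool.Agent.Results.MP_95bdb0_co.UpperHalf

open Finset Filter V11174.Broom

/-- `G` has no subgraph isomorphic to `T` -/
def TFree {V W : Type} (G : SimpleGraph V) (T : SimpleGraph W) : Prop :=
  ¬ ∃ f : W → V, Function.Injective f ∧ ∀ a b, T.Adj a b → G.Adj (f a) (f b)

/-- edge numbers of connected `T`-free subgraphs of `K_{n,n}` -/
def bcSet (n : ℕ) {t : ℕ} (T : SimpleGraph (Fin t)) : Set ℕ :=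
  {m | ∃ G : SimpleGraph (Fin n ⊕ Fin n), G ≤ completeBipartiteGraph (Fin n) (Fin n) ∧
    G.Connected ∧ TFree G T ∧ G.edgeSet.ncard = m}

/-- `ex_{b,c}(n, T)` -/
noncomputable def exbc (n : ℕ) {t : ℕ} (T : SimpleGraph (Fin t)) : ℕ := sSup (bcSet n T)

/-- `γ_{b,c,T}` -/
noncomputable def gbc {t : ℕ} (T : SimpleGraph (Fin t)) : ℝ :=
  limsup (fun n : ℕ => (exbc n T : ℝ) / (((t : ℝ) - 2) * n)) atTop

/-- infimum of `γ_{b,c,T}` over trees with at least `k` vertices -/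
noncomputable def infBc (k : ℕ) : ℝ :=
  sInf {x | ∃ t : ℕ, k ≤ t ∧ ∃ T : SimpleGraph (Fin t), T.IsTree ∧ x = gbc T}

theorem edge_bound {n t : ℕ} (ht : 2 ≤ t) (T : SimpleGraph (Fin t)) (hT : T.IsTree)
    (G : SimpleGraph (Fin n ⊕ Fin n)) (hG : TFree G T) : G.edgeSet.ncard ≤ (t - 2) * n := by
  classical
  by_contra hcon
  push Not at hcon
  apply hG
  have hedge : G.edgeSet.ncard = G.edgeFinset.card := by
    rw [← SimpleGraph.coe_edgeFinset, Set.ncard_coe_finset]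
  rw [hedge] at hcon
  obtain ⟨f, hf⟩ := ES903.erdos_sos G (t - 1) (by
    rw [Fintype.card_sum, Fintype.card_fin]
    have h1 : t - 1 - 1 = t - 2 := by omega
    rw [h1, mul_add]
    omega) T hT (by rw [Fintype.card_fin]; omega)
  exact ⟨f, f.injective, hf⟩

theorem exbc_le {n t : ℕ} (ht : 2 ≤ t) (T : SimpleGraph (Fin t)) (hT : T.IsTree) :
    exbc n T ≤ (t - 2) * n := by
  rcases Set.eq_empty_or_nonempty (bcSet n T) with h | h
  · rw [exbc, h]
    simp
  · apply csSup_le h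
    rintro m ⟨G, -, -, hG, rfl⟩
    exact edge_bound ht T hT G hG

theorem ratio_nonneg {n t : ℕ} (ht : 3 ≤ t) (T : SimpleGraph (Fin t)) :
    0 ≤ (exbc n T : ℝ) / (((t : ℝ) - 2) * n) := by
  have h1 : (3 : ℝ) ≤ t := by exact_mod_cast ht
  have h2 : (0 : ℝ) ≤ ((t : ℝ) - 2) * n := mul_nonneg (by linarith) (Nat.cast_nonneg _)
  positivity

theorem ratio_le_one {n t : ℕ} (ht : 3 ≤ t) (T : SimpleGraph (Fin t)) (hT : T.IsTree) :
    (exbc n T : ℝ) / (((t : ℝ) - 2) * n) ≤ 1 := by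
  have h1 : (3 : ℝ) ≤ t := by exact_mod_cast ht
  have h2 : (0 : ℝ) ≤ ((t : ℝ) - 2) * n := mul_nonneg (by linarith) (Nat.cast_nonneg _)
  apply div_le_one_of_le₀ _ h2
  have h := exbc_le (n := n) (by omega) T hT
  have h3 : ((exbc n T : ℕ) : ℝ) ≤ (((t - 2) * n : ℕ) : ℝ) := by exact_mod_cast h
  rw [Nat.cast_mul, Nat.cast_sub (by omega : 2 ≤ t)] at h3
  exact_mod_cast h3

theorem gbc_nonneg {t : ℕ} (ht : 3 ≤ t) (T : SimpleGraph (Fin t)) (hT : T.IsTree) :
    0 ≤ gbc T := by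
  apply Filter.le_limsup_of_frequently_le
  · exact Filter.Frequently.of_forall fun n => ratio_nonneg ht T
  · exact Filter.isBoundedUnder_of ⟨1, fun n => ratio_le_one ht T hT⟩

theorem exbc_broom {n s : ℕ} (hs : 1 ≤ s) (hn : (2 * s + 1) ^ s ≤ n) :
    exbc n (broom s) ≤ s * n := by
  classical
  rcases Set.eq_empty_or_nonempty (bcSet n (broom s)) with h | h
  · rw [exbc, h]
    simp
  apply csSup_le h
  rintro m ⟨G, hle, hconn, hfree, rfl⟩
  have hn0 : 0 < n := lt_of_lt_of_le (by positivity) hn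
  have hcol : ∀ a b, G.Adj a b → Sum.isLeft a ≠ Sum.isLeft b := by
    intro a b hab
    have := hle hab
    rcases a with a | a <;> rcases b with b | b <;> simp_all [completeBipartiteGraph]
  have hmain := main_bound G hconn Sum.isLeft hcol s hs (by
    rw [Fintype.card_sum, Fintype.card_fin]; omega) hfree
  rw [Fintype.card_sum, Fintype.card_fin] at hmain
  have hedge : G.edgeSet.ncard = G.edgeFinset.card := by
    rw [← SimpleGraph.coe_edgeFinset, Set.ncard_coe_finset]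
  rw [hedge]
  have : s * (n + n) = 2 * (s * n) := by ring
  omega

theorem gbc_broom {s : ℕ} (hs : 1 ≤ s) : gbc (broom s) ≤ (s : ℝ) / (2 * s - 1) := by
  have hs' : (1 : ℝ) ≤ s := by exact_mod_cast hs
  apply Filter.limsup_le_of_le
  · exact Filter.isCoboundedUnder_le_of_le atTop (x := 0)
      (fun n => ratio_nonneg (by omega) (broom s))
  · filter_upwards [Filter.eventually_ge_atTop ((2 * s + 1) ^ s)] with n hn
    have hn0 : 0 < n := lt_of_lt_of_le (by positivity) hn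
    have hn1 : (0 : ℝ) < n := by exact_mod_cast hn0
    have h1 : (exbc n (broom s) : ℝ) ≤ s * n := by exact_mod_cast exbc_broom hs hn
    have h2 : (((2 * s + 1 : ℕ) : ℝ) - 2) = 2 * s - 1 := by push_cast; ring
    rw [h2]
    have h3 : (0 : ℝ) < 2 * s - 1 := by linarith
    rw [div_le_div_iff₀ (by positivity) h3]
    nlinarith

theorem infBc_le {k : ℕ} (hk : 3 ≤ k) : infBc k ≤ 1 / 2 := by
  have hbdd : BddBelow {x | ∃ t : ℕ, k ≤ t ∧ ∃ T : SimpleGraph (Fin t), T.IsTree ∧ x = gbc T} := by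
    refine ⟨0, ?_⟩
    rintro y ⟨t', ht', T', hT', rfl⟩
    exact gbc_nonneg (by omega) T' hT'
  apply le_of_forall_pos_le_add
  intro ε hε
  obtain ⟨m, hm⟩ := exists_nat_gt (1 / ε)
  have h1 : infBc k ≤ gbc (broom (k + m)) :=
    csInf_le hbdd ⟨2 * (k + m) + 1, by omega, broom (k + m), broom_isTree _, rfl⟩
  refine h1.trans ((gbc_broom (by omega)).trans ?_)
  have h2 : (1 / ε) < ((k + m : ℕ) : ℝ) := by push_cast; have : (0 : ℝ) ≤ k := Nat.cast_nonneg _; linarith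
  have h3 : (1 : ℝ) ≤ ((k + m : ℕ) : ℝ) := by exact_mod_cast (by omega : 1 ≤ k + m)
  rw [div_lt_iff₀ hε] at h2
  rw [div_le_iff₀ (by linarith)]
  nlinarith

/-- `γ_{b,c} ≤ 1/2` -/
theorem result :
    (∀ s n : ℕ, 1 ≤ s → (2 * s + 1) ^ s ≤ n → (broom s).IsTree ∧ exbc n (broom s) ≤ s * n) ∧
    (∀ s : ℕ, 1 ≤ s → gbc (broom s) ≤ (s : ℝ) / (2 * s - 1)) ∧
    (∀ k : ℕ, 3 ≤ k → infBc k ≤ 1 / 2) ∧
    (∀ x : ℝ, Tendsto infBc atTop (nhds x) → x ≤ 1 / 2) := by
  refine ⟨fun s n hs hn => ⟨broom_isTree s, exbc_broom hs hn⟩, fun s hs => gbc_broom hs,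
    fun k hk => infBc_le hk, fun x hx => ?_⟩
  exact le_of_tendsto hx ((Filter.eventually_ge_atTop 3).mono fun k hk => infBc_le hk)

end Pool.Agent.Results.MP_95bdb0_co.UpperHalf
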