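import Pool.Agent.Helper903.ES.Main
import Pool.Agent.V11174.BroomD
import Pool.Agent.V11174.BroomE

set_option autoImplicit false

namespace Pool.Agent.Results.MP_95bdb0_co.UpperRatio

open Finset Filter V11174.Broom

/-- `G` has no subgraph isomorphic to `T` -/
def TFree {V W : Type} (G : SimpleGraph V) (T : SimpleGraph W) : Prop :=
  ¬ ∃ f : W → V, Function.Injective f ∧ ∀ a b, T.Adj a b → G.Adj (f a) (f b)

/-- edge numbers of `T`-free subgraphs of `K_{n,n}` -/
def bSet (n : ℕ) {t : ℕ} (T : SimpleGraph (Fin t)) : Set ℕ :=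
  {m | ∃ G : SimpleGraph (Fin n ⊕ Fin n), G ≤ completeBipartiteGraph (Fin n) (Fin n) ∧
    TFree G T ∧ G.edgeSet.ncard = m}

/-- edge numbers of connected `T`-free subgraphs of `K_{n,n}` -/
def bcSet (n : ℕ) {t : ℕ} (T : SimpleGraph (Fin t)) : Set ℕ :=
  {m | ∃ G : SimpleGraph (Fin n ⊕ Fin n), G ≤ completeBipartiteGraph (Fin n) (Fin n) ∧
    G.Connected ∧ TFree G T ∧ G.edgeSet.ncard = m}

/-- `ex_b(n, T)` -/
noncomputable def exb (n : ℕ) {t : ℕ} (T : SimpleGraph (Fin t)) : ℕ := sSup (bSet n T)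

/-- `ex_{b,c}(n, T)` -/
noncomputable def exbc (n : ℕ) {t : ℕ} (T : SimpleGraph (Fin t)) : ℕ := sSup (bcSet n T)

/-- `γ_{b↔c,T}` -/
noncomputable def gratio {t : ℕ} (T : SimpleGraph (Fin t)) : ℝ :=
  limsup (fun n : ℕ => (exbc n T : ℝ) / (exb n T : ℝ)) atTop

/-- infimum of `γ_{b↔c,T}` over trees with at least `k` vertices -/
noncomputable def infRatio (k : ℕ) : ℝ :=
  sInf {x | ∃ t : ℕ, k ≤ t ∧ ∃ T : SimpleGraph (Fin t), T.IsTree ∧ x = gratio T}

theorem edge_bound {n t : ℕ} (ht : 2 ≤ t) (T : SimpleGraph (Fin t)) (hT : T.IsTree)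
    (G : SimpleGraph (Fin n ⊕ Fin n)) (hG : TFree G T) : G.edgeSet.ncard ≤ (t - 2) * n := by
  classical
  by_contra hcon
  push Not at hcon
  apply hG
  have hedge : G.edgeSet.ncard = G.edgeFinset.card := by
    rw [← SimpleGraph.coe_edgeFinset, Set.ncard_coe_finset]
  rw [hedge] at hcon
  obtain ⟨f, hf⟩ := ES903.erdos_sos G (t - 1) (by
    rw [Fintype.card_sum, Fintype.card_fin]
    have h1 : t - 1 - 1 = t - 2 := by omega
    rw [h1, mul_add]
    omega) T hT (by rw [Fintype.card_fin]; omega)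
  exact ⟨f, f.injective, hf⟩

theorem bSet_le {n t : ℕ} (ht : 2 ≤ t) (T : SimpleGraph (Fin t)) (hT : T.IsTree) :
    ∀ m ∈ bSet n T, m ≤ (t - 2) * n := by
  rintro m ⟨G, -, hG, rfl⟩
  exact edge_bound ht T hT G hG

theorem exbc_le_exb {n t : ℕ} (ht : 2 ≤ t) (T : SimpleGraph (Fin t)) (hT : T.IsTree) :
    exbc n T ≤ exb n T := by
  rcases Set.eq_empty_or_nonempty (bcSet n T) with h | h
  · rw [exbc, h]
    simp
  · apply csSup_le_csSup ⟨(t - 2) * n, bSet_le ht T hT⟩ h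
    rintro m ⟨G, h1, -, h2, h3⟩
    exact ⟨G, h1, h2, h3⟩

theorem ratio_nonneg {n t : ℕ} (T : SimpleGraph (Fin t)) :
    0 ≤ (exbc n T : ℝ) / (exb n T : ℝ) := by positivity

theorem ratio_le_one {n t : ℕ} (ht : 3 ≤ t) (T : SimpleGraph (Fin t)) (hT : T.IsTree) :
    (exbc n T : ℝ) / (exb n T : ℝ) ≤ 1 := by
  have h : (exbc n T : ℝ) ≤ exb n T := by exact_mod_cast exbc_le_exb (by omega) T hT
  exact div_le_one_of_le₀ h (Nat.cast_nonneg _)

theorem gratio_nonneg {t : ℕ} (ht : 3 ≤ t) (T : SimpleGraph (Fin t)) (hT : T.IsTree) :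
    0 ≤ gratio T := by
  apply Filter.le_limsup_of_frequently_le
  · exact Filter.Frequently.of_forall fun n => ratio_nonneg T
  · exact Filter.isBoundedUnder_of ⟨1, fun n => ratio_le_one ht T hT⟩

theorem exbc_broom {n s : ℕ} (hs : 1 ≤ s) (hn : (2 * s + 1) ^ s ≤ n) :
    exbc n (broom s) ≤ s * n := by
  classical
  rcases Set.eq_empty_or_nonempty (bcSet n (broom s)) with h | h
  · rw [exbc, h]
    simp
  apply csSup_le h
  rintro m ⟨G, hle, hconn, hfree, rfl⟩
  have hn0 : 0 < n := lt_of_lt_of_le (by positivity) hn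
  have hcol : ∀ a b, G.Adj a b → Sum.isLeft a ≠ Sum.isLeft b := by
    intro a b hab
    have := hle hab
    rcases a with a | a <;> rcases b with b | b <;> simp_all [completeBipartiteGraph]
  have hmain := main_bound G hconn Sum.isLeft hcol s hs (by
    rw [Fintype.card_sum, Fintype.card_fin]; omega) hfree
  rw [Fintype.card_sum, Fintype.card_fin] at hmain
  have hedge : G.edgeSet.ncard = G.edgeFinset.card := by
    rw [← SimpleGraph.coe_edgeFinset, Set.ncard_coe_finset]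
  rw [hedge]
  have : s * (n + n) = 2 * (s * n) := by ring
  omega

theorem exb_broom {n r : ℕ} (hr : 1 ≤ r) :
    n / (3 * r - 1) * ((3 * r - 1) * (3 * r - 1)) ≤ exb n (broom (2 * r)) := by
  refine (blocks_edges n (3 * r - 1) (by omega)).trans ?_
  apply le_csSup ⟨_, bSet_le (by omega) _ (broom_isTree (2 * r))⟩
  exact ⟨blocks n (3 * r - 1), blocks_le n _, blocks_free n r hr, rfl⟩

theorem gratio_broom {r : ℕ} (hr : 1 ≤ r) : gratio (broom (2 * r)) ≤ (2 * r : ℝ) / (3 * r - 1) := by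
  have hr' : (1 : ℝ) ≤ r := by exact_mod_cast hr
  have hm0 : (0 : ℝ) < 3 * r - 1 := by linarith
  apply le_of_forall_pos_le_add
  intro ε hε
  obtain ⟨N, hN⟩ := exists_nat_gt (2 * r / ε)
  apply Filter.limsup_le_of_le
  · exact Filter.isCoboundedUnder_le_of_le atTop (x := 0) (fun n => ratio_nonneg (broom (2 * r)))
  · filter_upwards [Filter.eventually_ge_atTop ((2 * (2 * r) + 1) ^ (2 * r)),
      Filter.eventually_ge_atTop (3 * r + N)] with n hn hn2
    have h1 : (exbc n (broom (2 * r)) : ℝ) ≤ 2 * r * n := by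
      exact_mod_cast exbc_broom (by omega) hn
    have h2 : ((n : ℝ) - (3 * r - 1)) * (3 * r - 1) ≤ (exb n (broom (2 * r)) : ℝ) := by
      have h3 := exb_broom (n := n) hr
      have h4 : n < n / (3 * r - 1) * (3 * r - 1) + (3 * r - 1) := by
        have := Nat.lt_div_mul_add (a := n) (b := 3 * r - 1) (by omega)
        exact this
      have h5 : (n - (3 * r - 1)) * (3 * r - 1) ≤ exb n (broom (2 * r)) := by
        refine le_trans ?_ h3
        rw [← mul_assoc]
        exact Nat.mul_le_mul_right _ (by omega)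
      have h6 : (((n - (3 * r - 1)) * (3 * r - 1) : ℕ) : ℝ) ≤ exb n (broom (2 * r)) := by
        exact_mod_cast h5
      rw [Nat.cast_mul, Nat.cast_sub (by omega), Nat.cast_sub (by omega)] at h6
      push_cast at h6
      exact h6
    have h7 : (3 * r + N : ℝ) ≤ n := by exact_mod_cast hn2
    have h8 : (2 * r : ℝ) < N * ε := by rwa [div_lt_iff₀ hε] at hN
    have hNpos : (0 : ℝ) ≤ N := Nat.cast_nonneg N
    have h9 : (0 : ℝ) < (n : ℝ) - (3 * r - 1) := by linarith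
    have h10 : (0 : ℝ) < (exb n (broom (2 * r)) : ℝ) := lt_of_lt_of_le (mul_pos h9 hm0) h2
    rw [div_le_iff₀ h10]
    refine h1.trans (le_trans ?_ (mul_le_mul_of_nonneg_left h2 (by positivity)))
    have h11 : (2 * (r : ℝ) / (3 * r - 1) + ε) * (((n : ℝ) - (3 * r - 1)) * (3 * r - 1)) =
        2 * r * ((n : ℝ) - (3 * r - 1)) + ε * (((n : ℝ) - (3 * r - 1)) * (3 * r - 1)) := by
      have h14 : 2 * (r : ℝ) / (3 * r - 1) * (3 * r - 1) = 2 * r :=
        div_mul_cancel₀ _ hm0.ne'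
      calc _ = (2 * (r : ℝ) / (3 * r - 1) * (3 * r - 1)) * ((n : ℝ) - (3 * r - 1)) +
            ε * (((n : ℝ) - (3 * r - 1)) * (3 * r - 1)) := by ring
        _ = _ := by rw [h14]
    rw [h11]
    have h12 : (N : ℝ) * ε ≤ ε * ((n : ℝ) - (3 * r - 1)) := by
      rw [mul_comm]
      exact mul_le_mul_of_nonneg_left (by linarith) hε.le
    have h13 : (2 * r : ℝ) * (3 * r - 1) ≤ ε * (((n : ℝ) - (3 * r - 1)) * (3 * r - 1)) := by
      rw [← mul_assoc]
      exact mul_le_mul_of_nonneg_right (h8.le.trans h12) hm0.le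
    linarith

theorem infRatio_le {k : ℕ} (hk : 3 ≤ k) : infRatio k ≤ 2 / 3 := by
  have hbdd : BddBelow {x | ∃ t : ℕ, k ≤ t ∧ ∃ T : SimpleGraph (Fin t), T.IsTree ∧
      x = gratio T} := by
    refine ⟨0, ?_⟩
    rintro y ⟨t', ht', T', hT', rfl⟩
    exact gratio_nonneg (by omega) T' hT'
  apply le_of_forall_pos_le_add
  intro ε hε
  obtain ⟨m, hm⟩ := exists_nat_gt (1 / ε)
  have h1 : infRatio k ≤ gratio (broom (2 * (k + m))) :=
    csInf_le hbdd ⟨2 * (2 * (k + m)) + 1, by omega, broom (2 * (k + m)), broom_isTree _, rfl⟩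
  refine h1.trans ((gratio_broom (by omega)).trans ?_)
  have h2 : (1 / ε) < ((k + m : ℕ) : ℝ) := by
    push_cast
    have : (0 : ℝ) ≤ k := Nat.cast_nonneg _
    linarith
  have h3 : (1 : ℝ) ≤ ((k + m : ℕ) : ℝ) := by exact_mod_cast (by omega : 1 ≤ k + m)
  rw [div_lt_iff₀ hε] at h2
  rw [div_le_iff₀ (by linarith)]
  nlinarith

/-- `γ_{b↔c} ≤ 2/3` -/
theorem result :
    (∀ r : ℕ, 1 ≤ r → (broom (2 * r)).IsTree ∧
      gratio (broom (2 * r)) ≤ (2 * r : ℝ) / (3 * r - 1)) ∧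
    (∀ k : ℕ, 3 ≤ k → infRatio k ≤ 2 / 3) ∧
    (∀ x : ℝ, Tendsto infRatio atTop (nhds x) → x ≤ 2 / 3) := by
  refine ⟨fun r hr => ⟨broom_isTree _, gratio_broom hr⟩, fun k hk => infRatio_le hk,
    fun x hx => ?_⟩
  exact le_of_tendsto hx ((Filter.eventually_ge_atTop 3).mono fun k hk => infRatio_le hk)

end Pool.Agent.Results.MP_95bdb0_co.UpperRatio
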